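import Pool.Agent.H47.PL.Targets

/-!
Planted random k-CNFs and backtracking search (MP_c62aed_lc), row DRU: the probability that the
search succeeds.
-/

set_option autoImplicit false

namespace Pool.Agent.H70.PLN

open Finset Pool.Agent.H97.RK Pool.Agent.H47.PL

section

variable {n k m : ℕ}

theorem con_insert {L : Finset (Fin n × Bool)} (hL : Con L) {v : Fin n} {b : Bool}
    (hv : (v, !b) ∉ L) : Con (insert (v, b) L) := by
  intro u c hu hu'
  rw [Finset.mem_insert] at hu hu'
  rcases hu with hu | hu
  · have h1 : u = v := congrArg Prod.fst hu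
    have h2 : c = b := congrArg Prod.snd hu
    subst h1; subst h2
    rcases hu' with hu' | hu'
    · have h3 : (!c) = c := congrArg Prod.snd hu'
      cases c <;> simp at h3
    · exact hv hu'
  · rcases hu' with hu' | hu'
    · have h1 : u = v := congrArg Prod.fst hu'
      have h2 : (!c) = b := congrArg Prod.snd hu'
      subst h1; subst h2
      rw [Bool.not_not] at hv
      exact hv hu
    · exact hL u c hu hu'

/-- success gives a solution -/
theorem find_sat (F : Fml n k m) (Ex : Finset (Fin n × Bool) → Prop)
    (ω : Finset (Fin n × Bool) → Bool) (T : Pool.Agent.H47.PL.Tree n) : ∀ L, Con L → Find F Ex ω T L →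
    ∃ τ, Sat F τ ∧ Agr τ L := by
  induction T with
  | leaf =>
    intro L hL hF
    have hA : Agr (fun v => decide ((v, true) ∈ L)) L := by
      rintro ⟨v, b⟩ hb
      cases b
      · have h1 := hL v false hb
        simpa using h1
      · simpa using hb
    refine ⟨_, fun c => ?_, hA⟩
    obtain ⟨i, hi⟩ := hF c
    exact ⟨i, hA _ hi⟩
  | node v f ih =>
    intro L hL hF
    obtain ⟨b, hb, _, hF⟩ := hF
    obtain ⟨τ, h1, h2⟩ := ih b _ (con_insert hL hb) hF
    exact ⟨τ, h1, fun l hl => h2 l (Finset.mem_insert_of_mem hl)⟩

/-- the search depends on the later values only -/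
theorem find_congr (F : Fml n k m) (Ex : Finset (Fin n × Bool) → Prop)
    (ω ω' : Finset (Fin n × Bool) → Bool) (T : Pool.Agent.H47.PL.Tree n) : ∀ L, (∀ L', L ⊆ L' → ω L' = ω' L') →
    Find F Ex ω T L → Find F Ex ω' T L := by
  induction T with
  | leaf =>
    intro L _ hF
    exact hF
  | node v f ih =>
    intro L hL hF
    obtain ⟨b, hb, hc, hF⟩ := hF
    refine ⟨b, hb, ?_, ih b _ (fun L' hL' => hL L' ((Finset.subset_insert _ _).trans hL')) hF⟩
    rcases hc with hc | hc | hc
    · exact Or.inl hc
    · exact Or.inr (Or.inl (by rw [← hL L (Finset.Subset.refl _)]; exact hc))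
    · exact Or.inr (Or.inr hc)

theorem nsolL_split (F : Fml n k m) (L : Finset (Fin n × Bool)) (v : Fin n) :
    nsolL F L = nsolL F (insert (v, true) L) + nsolL F (insert (v, false) L) := by
  classical
  unfold nsolL
  rw [← Finset.card_union_of_disjoint]
  · congr 1
    ext τ
    simp only [Finset.mem_union, Finset.mem_filter, Finset.mem_univ, true_and]
    constructor
    · rintro ⟨h1, h2⟩
      rcases hb : τ v with _ | _
      · right
        refine ⟨h1, fun l hl => ?_⟩
        rcases Finset.mem_insert.1 hl with rfl | hl
        · exact hb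
        · exact h2 l hl
      · left
        refine ⟨h1, fun l hl => ?_⟩
        rcases Finset.mem_insert.1 hl with rfl | hl
        · exact hb
        · exact h2 l hl
    · rintro (⟨h1, h2⟩ | ⟨h1, h2⟩)
      · exact ⟨h1, fun l hl => h2 l (Finset.mem_insert_of_mem hl)⟩
      · exact ⟨h1, fun l hl => h2 l (Finset.mem_insert_of_mem hl)⟩
  · rw [Finset.disjoint_left]
    intro τ h1 h2
    have h3 := (Finset.mem_filter.1 h1).2.2 _ (Finset.mem_insert_self _ _)
    have h4 := (Finset.mem_filter.1 h2).2.2 _ (Finset.mem_insert_self _ _)
    rw [h3] at h4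
    exact absurd h4 (by simp)

/-- the number of the assignments which extend a satisfying partial assignment -/
theorem nsolL_done (F : Fml n k m) (L : Finset (Fin n × Bool)) (hL : Con L) (hD : Done F L) :
    2 ^ (n - L.card) ≤ nsolL F L := by
  classical
  have hdm : (dm L).card ≤ L.card := Finset.card_image_le
  have h1 : Fintype.card ({v : Fin n // v ∉ dm L} → Bool) = 2 ^ (n - (dm L).card) := by
    rw [Fintype.card_fun, Fintype.card_bool, Fintype.card_subtype_compl, Fintype.card_fin,
      Fintype.card_coe]
  have h2 : Fintype.card ({v : Fin n // v ∉ dm L} → Bool) ≤ nsolL F L := by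
    rw [← Finset.card_univ]
    unfold nsolL
    let g : ({v : Fin n // v ∉ dm L} → Bool) → Fin n → Bool := fun z v =>
      if h : v ∉ dm L then z ⟨v, h⟩ else decide ((v, true) ∈ L)
    have hA : ∀ z, Agr (g z) L := by
      rintro z ⟨v, b⟩ hb
      have hv : v ∈ dm L := Finset.mem_image.2 ⟨(v, b), hb, rfl⟩
      show (if h : v ∉ dm L then z ⟨v, h⟩ else decide ((v, true) ∈ L)) = b
      rw [dif_neg (not_not.2 hv)]
      cases b
      · have h1 := hL v false hb
        simpa using h1
      · simpa using hb
    refine Finset.card_le_card_of_injOn g (fun z _ => ?_) (fun z _ z' _ hzz => ?_)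
    · rw [Finset.mem_coe, Finset.mem_filter]
      refine ⟨Finset.mem_univ _, fun c => ?_, hA z⟩
      obtain ⟨i, hi⟩ := hD c
      exact ⟨i, hA z _ hi⟩
    · funext ⟨v, hv⟩
      have h3 := congrFun hzz v
      simp only [g] at h3
      rwa [dif_pos hv, dif_pos hv] at h3
  rw [h1] at h2
  exact le_trans (Nat.pow_le_pow_right (by norm_num) (by omega)) h2

end

theorem dm_insert {n : ℕ} (L : Finset (Fin n × Bool)) (v : Fin n) (b : Bool) :
    dm (insert (v, b) L) = insert v (dm L) := by
  unfold dm
  rw [Finset.image_insert]

theorem arith (a b c x y N e d w : ℕ) (w1 : ℕ) (hab : c * 2 ^ w1 ≤ (a + b) * 2 ^ (w + 0))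
    (ha : a * 2 ^ d * 2 ^ w ≤ x * 2 ^ e * N) (hb : b * 2 ^ d * 2 ^ w ≤ y * 2 ^ e * N) :
    c * 2 ^ d * 2 ^ w1 ≤ (x + y) * 2 ^ e * N := by
  calc c * 2 ^ d * 2 ^ w1 = (c * 2 ^ w1) * 2 ^ d := by ring
    _ ≤ ((a + b) * 2 ^ (w + 0)) * 2 ^ d := Nat.mul_le_mul_right _ hab
    _ = a * 2 ^ d * 2 ^ w + b * 2 ^ d * 2 ^ w := by rw [Nat.add_zero]; ring
    _ ≤ x * 2 ^ e * N + y * 2 ^ e * N := Nat.add_le_add ha hb
    _ = (x + y) * 2 ^ e * N := by ring

open Classical in
theorem main (hIND : T_IND) (n k m : ℕ) (F : Fml n k m) (D e : ℕ)
    (Ex : Finset (Fin n × Bool) → Prop)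
    (Res : Finset (Fin n × Bool) → Finset (Fin n) → Prop) (hR : Rsv F D e Ex Res) (hDn : D ≤ n)
    (T : Pool.Agent.H47.PL.Tree n) : ∀ L W, Con L → Res L W → L.card ≤ D →
    (univ.filter fun ω => Find F Ex ω T L).card * 2 ^ (D - L.card) * 2 ^ (dm L ∩ W).card ≤
      nsolL F L * 2 ^ e * Fintype.card (Finset (Fin n × Bool) → Bool) := by
  induction T with
  | leaf =>
    intro L W hL hRes hLD
    by_cases hD : Done F L
    · have h1 := nsolL_done F L hL hD
      have h2 : (univ.filter fun ω : Finset (Fin n × Bool) → Bool =>
          Find F Ex ω Pool.Agent.H47.PL.Tree.leaf L).card ≤ Fintype.card (Finset (Fin n × Bool) → Bool) := by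
        rw [← Finset.card_univ]
        exact Finset.card_le_card (Finset.filter_subset _ _)
      have h3 : (dm L ∩ W).card ≤ e :=
        (Finset.card_le_card Finset.inter_subset_right).trans (hR.card L W hRes)
      have h4 : 2 ^ (D - L.card) ≤ nsolL F L :=
        (Nat.pow_le_pow_right (by norm_num) (by omega)).trans h1
      have h5 : 2 ^ (dm L ∩ W).card ≤ 2 ^ e := Nat.pow_le_pow_right (by norm_num) h3
      calc _ ≤ Fintype.card (Finset (Fin n × Bool) → Bool) * nsolL F L * 2 ^ e :=
            Nat.mul_le_mul (Nat.mul_le_mul h2 h4) h5
        _ = _ := by ring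
    · have h1 : (univ.filter fun ω : Finset (Fin n × Bool) → Bool =>
          Find F Ex ω Pool.Agent.H47.PL.Tree.leaf L) = ∅ := by
        rw [Finset.filter_eq_empty_iff]
        intro ω _ h
        exact hD h
      rw [h1, Finset.card_empty]
      simp
  | node v f ih =>
    intro L W hL hRes hLD
    by_cases hv : v ∈ dm L
    · -- the variable has a value
      obtain ⟨⟨u, b⟩, hub, hu⟩ := Finset.mem_image.1 hv
      have hu' : u = v := hu
      subst hu'
      have hins : insert (u, b) L = L := Finset.insert_eq_of_mem hub
      have h1 : (univ.filter fun ω => Find F Ex ω (Pool.Agent.H47.PL.Tree.node u f) L).card ≤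
          (univ.filter fun ω => Find F Ex ω (f b) L).card := by
        refine Finset.card_le_card fun ω hω => ?_
        rw [Finset.mem_filter] at hω ⊢
        refine ⟨Finset.mem_univ _, ?_⟩
        obtain ⟨b', hb', _, hF⟩ := hω.2
        have hbb : b' = b := by
          by_contra hne
          apply hb'
          have : (!b') = b := by cases b <;> cases b' <;> simp_all
          rw [this]
          exact hub
        rw [hbb, hins] at hF
        exact hF
      have h2 := ih b L W hL hRes hLD
      exact le_trans (Nat.mul_le_mul_right _ (Nat.mul_le_mul_right _ h1)) h2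
    · rcases Nat.lt_or_ge L.card D with hlt | hge
      swap
      · -- depth `D`
        have hD0 : D - L.card = 0 := by omega
        rw [hD0, pow_zero, mul_one]
        by_cases hem : (univ.filter fun ω => Find F Ex ω (Pool.Agent.H47.PL.Tree.node v f) L) = ∅
        · rw [hem, Finset.card_empty, Nat.zero_mul]
          exact Nat.zero_le _
        · obtain ⟨ω, hω⟩ := Finset.nonempty_iff_ne_empty.2 hem
          obtain ⟨τ, h1, h2⟩ := find_sat F Ex ω _ L hL (Finset.mem_filter.1 hω).2
          have h3 : 1 ≤ nsolL F L := Finset.card_pos.2 ⟨τ, Finset.mem_filter.2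
            ⟨Finset.mem_univ _, h1, h2⟩⟩
          have h4 : (univ.filter fun ω : Finset (Fin n × Bool) → Bool =>
              Find F Ex ω (Pool.Agent.H47.PL.Tree.node v f) L).card ≤
              Fintype.card (Finset (Fin n × Bool) → Bool) := by
            rw [← Finset.card_univ]
            exact Finset.card_le_card (Finset.filter_subset _ _)
          have h5 : (dm L ∩ W).card ≤ e :=
            (Finset.card_le_card Finset.inter_subset_right).trans (hR.card L W hRes)
          have h6 : 2 ^ (dm L ∩ W).card ≤ 2 ^ e := Nat.pow_le_pow_right (by norm_num) h5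
          calc _ ≤ Fintype.card (Finset (Fin n × Bool) → Bool) * 2 ^ e := Nat.mul_le_mul h4 h6
            _ = 1 * 2 ^ e * Fintype.card (Finset (Fin n × Bool) → Bool) := by ring
            _ ≤ _ := Nat.mul_le_mul_right _ (Nat.mul_le_mul_right _ h3)
      · -- the main case
        have hnb : ∀ b, (v, b) ∉ L := fun b hb => hv (Finset.mem_image.2 ⟨(v, b), hb, rfl⟩)
        have hcard : ∀ b, (insert (v, b) L).card = L.card + 1 := fun b =>
          Finset.card_insert_of_notMem (hnb b)
        set δ : ℕ := if v ∈ W then 1 else 0 with hδ
        -- the two subtrees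
        have hsub : ∀ b, (univ.filter fun ω => Find F Ex ω (f b) (insert (v, b) L)).card *
            2 ^ (D - L.card - 1) * 2 ^ ((dm L ∩ W).card + δ) ≤
            nsolL F (insert (v, b) L) * 2 ^ e *
              Fintype.card (Finset (Fin n × Bool) → Bool) := by
          intro b
          by_cases hem : (univ.filter fun ω => Find F Ex ω (f b) (insert (v, b) L)) = ∅
          · rw [hem, Finset.card_empty, Nat.zero_mul, Nat.zero_mul]
            exact Nat.zero_le _
          · obtain ⟨ω, hω⟩ := Finset.nonempty_iff_ne_empty.2 hem
            obtain ⟨τ, h1, h2⟩ := find_sat F Ex ω _ _ (con_insert hL (hnb _))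
              (Finset.mem_filter.1 hω).2
            obtain ⟨W', hW, hRes'⟩ := hR.step L W v b τ hRes hlt hv h1 h2
            have h3 := ih b (insert (v, b) L) W' (con_insert hL (hnb _)) hRes'
              (by rw [hcard]; omega)
            rw [hcard, ← Nat.sub_sub] at h3
            refine le_trans (Nat.mul_le_mul_left _ (Nat.pow_le_pow_right (by norm_num) ?_)) h3
            rw [dm_insert]
            by_cases hvW : v ∈ W
            · rw [hδ, if_pos hvW]
              have h4 : v ∉ dm L ∩ W := fun h => hv (Finset.mem_inter.1 h).1
              rw [← Finset.card_insert_of_notMem h4]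
              refine Finset.card_le_card fun u hu => ?_
              rw [Finset.mem_inter, Finset.mem_insert]
              rcases Finset.mem_insert.1 hu with rfl | hu
              · exact ⟨Or.inl rfl, hW hvW⟩
              · exact ⟨Or.inr (Finset.mem_inter.1 hu).1, hW (Finset.mem_inter.1 hu).2⟩
            · rw [hδ, if_neg hvW, Nat.add_zero]
              refine Finset.card_le_card fun u hu => ?_
              rw [Finset.mem_inter, Finset.mem_insert]
              exact ⟨Or.inr (Finset.mem_inter.1 hu).1, hW (Finset.mem_inter.1 hu).2⟩
        -- the count of the successes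
        have hcount : (univ.filter fun ω => Find F Ex ω (Pool.Agent.H47.PL.Tree.node v f) L).card *
            2 ^ ((dm L ∩ W).card + 1) ≤
            ((univ.filter fun ω => Find F Ex ω (f true) (insert (v, true) L)).card +
              (univ.filter fun ω => Find F Ex ω (f false) (insert (v, false) L)).card) *
              2 ^ ((dm L ∩ W).card + δ + 0) := by
          by_cases hvW : v ∈ W
          · rw [hδ, if_pos hvW, Nat.add_zero]
            refine Nat.mul_le_mul_right _ ?_
            refine le_trans (Finset.card_le_card (t := (univ.filter fun ω =>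
              Find F Ex ω (f true) (insert (v, true) L)) ∪ (univ.filter fun ω =>
              Find F Ex ω (f false) (insert (v, false) L))) fun ω hω => ?_)
              (Finset.card_union_le _ _)
            rw [Finset.mem_union, Finset.mem_filter, Finset.mem_filter]
            obtain ⟨b, _, _, hF⟩ := (Finset.mem_filter.1 hω).2
            cases b
            · exact Or.inr ⟨Finset.mem_univ _, hF⟩
            · exact Or.inl ⟨Finset.mem_univ _, hF⟩
          · rw [hδ, if_neg hvW, Nat.add_zero, Nat.add_zero]
            have hhalf : ∀ b, 2 * (univ.filter fun ω : Finset (Fin n × Bool) → Bool =>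
                ω L = b ∧ Find F Ex ω (f b) (insert (v, b) L)).card =
                (univ.filter fun ω => Find F Ex ω (f b) (insert (v, b) L)).card := by
              intro b
              refine hIND (Finset (Fin n × Bool)) L b
                (fun ω => Find F Ex ω (f b) (insert (v, b) L)) (fun ω ω' hω => ?_)
              refine find_congr F Ex ω ω' _ _ fun L' hL' => hω L' fun heq => ?_
              rw [heq] at hL'
              exact hnb b (hL' (Finset.mem_insert_self _ _))
            have hle : (univ.filter fun ω => Find F Ex ω (Pool.Agent.H47.PL.Tree.node v f) L).card ≤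
                (univ.filter fun ω : Finset (Fin n × Bool) → Bool =>
                  ω L = true ∧ Find F Ex ω (f true) (insert (v, true) L)).card +
                (univ.filter fun ω : Finset (Fin n × Bool) → Bool =>
                  ω L = false ∧ Find F Ex ω (f false) (insert (v, false) L)).card := by
              refine le_trans (Finset.card_le_card (t := (univ.filter fun
                  ω : Finset (Fin n × Bool) → Bool =>
                  ω L = true ∧ Find F Ex ω (f true) (insert (v, true) L)) ∪
                (univ.filter fun ω : Finset (Fin n × Bool) → Bool =>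
                  ω L = false ∧ Find F Ex ω (f false) (insert (v, false) L))) fun ω hω => ?_)
                (Finset.card_union_le _ _)
              rw [Finset.mem_union, Finset.mem_filter, Finset.mem_filter]
              obtain ⟨b, _, hc, hF⟩ := (Finset.mem_filter.1 hω).2
              have hωb : ω L = b := by
                rcases hc with hc | hc | hc
                · exact absurd hc (hnb b)
                · exact hc
                · obtain ⟨τ, h1, h2⟩ := find_sat F Ex ω _ _ (con_insert hL (hnb _)) hF
                  exact absurd hc (hR.free L W v b τ hRes hlt hv hvW h1 h2)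
              cases b
              · exact Or.inr ⟨Finset.mem_univ _, hωb, hF⟩
              · exact Or.inl ⟨Finset.mem_univ _, hωb, hF⟩
            rw [pow_succ, ← hhalf true, ← hhalf false]
            calc _ ≤ ((univ.filter fun ω : Finset (Fin n × Bool) → Bool =>
                  ω L = true ∧ Find F Ex ω (f true) (insert (v, true) L)).card +
                (univ.filter fun ω : Finset (Fin n × Bool) → Bool =>
                  ω L = false ∧ Find F Ex ω (f false) (insert (v, false) L)).card) *
                  (2 ^ (dm L ∩ W).card * 2) := Nat.mul_le_mul_right _ hle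
              _ = _ := by ring
        have hfin := arith _ _ _ _ _ _ e (D - L.card - 1) _ _ hcount (hsub true) (hsub false)
        rw [← nsolL_split] at hfin
        have hpow : (2 : ℕ) ^ (D - L.card - 1) * 2 ^ ((dm L ∩ W).card + 1) =
            2 ^ (D - L.card) * 2 ^ (dm L ∩ W).card := by
          rw [← pow_add, ← pow_add]
          congr 1
          omega
        rw [mul_assoc, ← hpow, ← mul_assoc]
        exact hfin

theorem pf_DRU (hIND : T_IND) : T_DRU := by
  classical
  intro n k m F D e Ex Res hR hDn T
  have h := main hIND n k m F D e Ex Res hR hDn T ∅ ∅ (fun v b hb => by simp at hb) hR.init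
    (by simp)
  rw [Finset.card_empty, Nat.sub_zero, Finset.inter_empty, Finset.card_empty, pow_zero,
    mul_one] at h
  have hn : nsolL F ∅ = nsol F := by
    unfold nsolL nsol
    congr 1
    ext τ
    simp only [Finset.mem_filter, Finset.mem_univ, true_and]
    exact ⟨fun h => h.1, fun h => ⟨h, fun l hl => by simp at hl⟩⟩
  rw [hn] at h
  exact h

end Pool.Agent.H70.PLN
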